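import Mathlib
import Pool.Agent.Helper176.LJAsp

set_option autoImplicit false

/-!
The long James spaces over well-ordered sets of arbitrary large cardinality: density, and the
relation of countably norming Markushevich bases of the dual with the bidual ball.
-/

namespace Pool.Agent.Y421.LJ

open Set Topology Filter Cardinal
open Pool.Agent.Helper176.LJ

/-- well-ordered sets with a top of cofinality `ℵ₂`, of every cardinality `≥ ℵ₂` -/
theorem exists_L (κ : Cardinal.{0}) (hκ : Order.succ ℵ₁ ≤ κ) :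
    ∃ (L : Type) (_ : LinearOrder L) (_ : OrderBot L) (_ : OrderTop L),
    WellFoundedLT L ∧ #L = κ ∧
    ∀ S : Set L, (∀ x ∈ S, x < ⊤) → #S ≤ ℵ₁ → ∃ b < ⊤, ∀ x ∈ S, x < b := by
  classical
  let c : Cardinal.{0} := Order.succ ℵ₁
  have hreg : c.IsRegular := Cardinal.isRegular_succ (Cardinal.aleph0_le_aleph 1)
  have hκ0 : ℵ₀ ≤ κ := hreg.aleph0_le.trans hκ
  let M : Type := (κ.ord + c.ord).ToType
  have hMmk : #M = κ := by
    have h1 : #M = (κ.ord + c.ord).card := Cardinal.mk_toType _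
    rw [h1, Ordinal.card_add, Cardinal.card_ord, Cardinal.card_ord]
    exact Cardinal.add_eq_left hκ0 hκ
  have hMne : Nonempty M := by
    rw [← Cardinal.mk_ne_zero_iff, hMmk]
    exact (Cardinal.aleph0_pos.trans_le hκ0).ne'
  let bM : OrderBot M :=
    { bot := wellFounded_lt.min (Set.univ : Set M) Set.univ_nonempty
      bot_le := fun a => not_lt.1 (wellFounded_lt.not_lt_min _ (mem_univ a)) }
  refine ⟨WithTop M, inferInstance, inferInstance, inferInstance, inferInstance, ?_, ?_⟩
  · have h1 : #(WithTop M) = #M + 1 := Cardinal.mk_option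
    rw [h1, hMmk]
    exact Cardinal.add_one_eq hκ0
  intro S hS hSc
  set S' : Set M := {m | (m : WithTop M) ∈ S} with hS'
  have hle : #S' ≤ #S := by
    refine Cardinal.mk_le_of_injective (f := fun m : S' => (⟨((m : M) : WithTop M), m.2⟩ : S)) ?_
    intro a b hab
    have := congrArg Subtype.val hab
    exact Subtype.ext (WithTop.coe_injective this)
  have hcofM : Order.cof M = c := by
    have h1 : Order.cof M = (κ.ord + c.ord).cof := Ordinal.cof_toType _
    have h0 : c.ord ≠ 0 := by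
      rw [Ne, Cardinal.ord_eq_zero]
      exact hreg.ne_zero
    rw [h1, Ordinal.cof_add _ h0, hreg.cof_ord]
  have hnc : ¬ IsCofinal S' := by
    intro hcon
    have h1 := Order.cof_le hcon
    rw [hcofM] at h1
    exact absurd ((h1.trans hle).trans hSc) (not_le.2 (Order.lt_succ _))
  obtain ⟨x, hx⟩ := not_isCofinal_iff.1 hnc
  refine ⟨(x : WithTop M), WithTop.coe_lt_top x, fun y hy => ?_⟩
  obtain ⟨m, rfl⟩ := WithTop.ne_top_iff_exists.1 (hS y hy).ne
  exact WithTop.coe_lt_coe.2 (hx m hy)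

section Span

variable {L : Type} [LinearOrder L] [OrderBot L]

open Classical in
/-- the step functions span the space of finite step functions -/
theorem mem_span_step (n : ℕ) : ∀ (s : Finset L), s.card = n → ∀ f : L → ℝ, f ⊥ = 0 →
    CutDet s f → f ∈ Submodule.span ℝ (range (stepFn (L := L))) := by
  induction n with
  | zero =>
    intro s hs f hf hcd
    rw [Finset.card_eq_zero] at hs
    subst hs
    have : f = 0 := by
      funext ζ
      rw [hcd ζ ⊥ (by simp), hf]
      rfl
    rw [this]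
    exact Submodule.zero_mem _
  | succ n ih =>
    intro s hs f hf hcd
    have hne : s.Nonempty := by
      rw [← Finset.card_pos, hs]
      omega
    set m := s.max' hne with hm
    have hms : m ∈ s := s.max'_mem hne
    have hle : ∀ σ ∈ s, σ ≤ m := fun σ hσ => s.le_max' σ hσ
    obtain ⟨c, hc⟩ : ∃ c : ℝ, ∀ ζ, m < ζ → f ζ = c := by
      by_cases h : ∃ ζ, m < ζ
      · obtain ⟨ζ0, h0⟩ := h
        refine ⟨f ζ0, fun ζ hζ => hcd _ _ fun σ hσ => ?_⟩
        constructor
        · intro h1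
          exact absurd (h1.trans (hle σ hσ)) (not_le.2 hζ)
        · intro h1
          exact absurd (h1.trans (hle σ hσ)) (not_le.2 h0)
      · exact ⟨0, fun ζ hζ => absurd ⟨ζ, hζ⟩ h⟩
    set g : L → ℝ := f - (c - f m) • stepFn m with hg
    have hstep1 : ∀ ζ, ζ ≤ m → stepFn m ζ = 0 := by
      intro ζ hζ
      unfold stepFn
      rw [indicator_of_notMem]
      exact not_lt.2 hζ
    have hstep2 : ∀ ζ, m < ζ → stepFn m ζ = 1 := by
      intro ζ hζ
      unfold stepFn
      rw [indicator_of_mem]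
      exact hζ
    have hg1 : ∀ ζ, ζ ≤ m → g ζ = f ζ := by
      intro ζ hζ
      simp [hg, hstep1 ζ hζ]
    have hg2 : ∀ ζ, m < ζ → g ζ = f m := by
      intro ζ hζ
      simp [hg, hstep2 ζ hζ, hc ζ hζ]
    have key : ∀ ζ ζ' : L, (∀ σ ∈ s.erase m, (ζ ≤ σ ↔ ζ' ≤ σ)) → ζ ≤ m → m < ζ' →
        g ζ = g ζ' := by
      intro ζ ζ' hz h1 h2
      rw [hg1 ζ h1, hg2 ζ' h2]
      refine hcd _ _ fun σ hσ => ?_
      by_cases hσm : σ = m
      · subst hσm
        exact ⟨fun _ => le_rfl, fun _ => h1⟩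
      · have h3 := hz σ (Finset.mem_erase.2 ⟨hσm, hσ⟩)
        have h4 : σ < m := lt_of_le_of_ne (hle σ hσ) hσm
        constructor
        · intro h5
          exact absurd (h3.1 h5) (not_le.2 (h4.trans h2))
        · intro h5
          exact absurd h5 (not_le.2 h4)
    have hgcd : CutDet (s.erase m) g := by
      intro ζ ζ' hz
      rcases le_or_gt ζ m with h1 | h1 <;> rcases le_or_gt ζ' m with h2 | h2
      · rw [hg1 ζ h1, hg1 ζ' h2]
        refine hcd _ _ fun σ hσ => ?_
        by_cases hσm : σ = m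
        · subst hσm
          exact ⟨fun _ => h2, fun _ => h1⟩
        · exact hz σ (Finset.mem_erase.2 ⟨hσm, hσ⟩)
      · exact key ζ ζ' hz h1 h2
      · exact (key ζ' ζ (fun σ hσ => (hz σ hσ).symm) h2 h1).symm
      · rw [hg2 ζ h1, hg2 ζ' h2]
    have hgs : g ∈ Submodule.span ℝ (range (stepFn (L := L))) := by
      refine ih (s.erase m) ?_ g ?_ hgcd
      · rw [Finset.card_erase_of_mem hms, hs]
        rfl
      · rw [hg1 ⊥ bot_le, hf]
    have hfg : f = g + (c - f m) • stepFn m := by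
      rw [hg]
      exact (sub_add_cancel _ _).symm
    rw [hfg]
    exact Submodule.add_mem _ hgs (Submodule.smul_mem _ _ (Submodule.subset_span ⟨m, rfl⟩))

theorem mem_span_u (f : X₀ L) : f ∈ Submodule.span ℝ (range (u (L := L))) := by
  obtain ⟨s, hs⟩ := f.2.2
  have h1 := mem_span_step s.card s rfl (f : L → ℝ) f.2.1 hs
  have h2 : range (stepFn (L := L)) = (X₀ L).subtype '' range (u (L := L)) := by
    rw [← range_comp]
    rfl
  rw [h2, ← Submodule.map_span] at h1
  obtain ⟨g, hg, hgf⟩ := h1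
  have : g = f := Subtype.ext hgf
  rw [← this]
  exact hg

end Span

section Density

variable {L : Type} [LinearOrder L] [OrderBot L]
variable {Y : Type} [NormedAddCommGroup Y] [NormedSpace ℝ Y] (D : JData L Y)

/-- rational combinations of the step functions -/
noncomputable def comb (g : L →₀ ℚ) : Y := g.sum fun β q => (q : ℝ) • D.ι (u β)

theorem comb_add (g h : L →₀ ℚ) : comb D (g + h) = comb D g + comb D h := by
  classical
  unfold comb
  refine Finsupp.sum_add_index' (fun β => by simp) (fun β p q => ?_)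
  push_cast
  rw [add_smul]

theorem comb_smul (q : ℚ) (g : L →₀ ℚ) : comb D (q • g) = (q : ℝ) • comb D g := by
  classical
  unfold comb
  rw [Finsupp.sum_smul_index' (fun β => by simp), Finsupp.smul_sum]
  refine Finsupp.sum_congr fun β _ => ?_
  rw [smul_smul]
  congr 1
  push_cast [smul_eq_mul]
  rfl

/-- the closure of the set of rational combinations is a subspace -/
noncomputable def clos : Submodule ℝ Y where
  carrier := closure (range (comb D))
  add_mem' := by
    intro a b ha hb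
    refine map_mem_closure₂ continuous_add ha hb ?_
    rintro _ ⟨g, rfl⟩ _ ⟨h, rfl⟩
    exact ⟨g + h, comb_add D g h⟩
  zero_mem' := subset_closure ⟨0, by simp [comb]⟩
  smul_mem' := by
    intro r a ha
    have hr : r ∈ closure (range ((↑) : ℚ → ℝ)) := Rat.denseRange_cast r
    refine map_mem_closure₂ continuous_smul hr ha ?_
    rintro _ ⟨q, rfl⟩ _ ⟨g, rfl⟩
    exact ⟨q • g, comb_smul D q g⟩

theorem ι_mem_clos (f : X₀ L) : D.ι f ∈ clos D := by
  have h1 : Submodule.span ℝ (range (u (L := L))) ≤ (clos D).comap D.ι := by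
    rw [Submodule.span_le]
    rintro _ ⟨β, rfl⟩
    show D.ι (u β) ∈ closure (range (comb D))
    refine subset_closure ⟨Finsupp.single β 1, ?_⟩
    unfold comb
    rw [Finsupp.sum_single_index (by simp)]
    simp
  exact h1 (mem_span_u f)

theorem dense_comb : Dense (range (comb D)) := by
  rw [dense_iff_closure_eq]
  apply eq_univ_of_univ_subset
  rw [← D.dense.closure_range]
  exact closure_minimal (by rintro _ ⟨f, rfl⟩; exact ι_mem_clos D f) isClosed_closure

theorem mk_comb_le (hL : ℵ₀ ≤ #L) : #(range (comb D)) ≤ #L := by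
  have : Infinite L := Cardinal.infinite_iff.2 hL
  refine Cardinal.mk_range_le.trans ?_
  rw [Cardinal.mk_finsupp_of_infinite]
  refine max_le le_rfl ?_
  exact (Cardinal.mk_le_aleph0 (α := ℚ)).trans hL

/-- distinct step functions are separated -/
theorem sep (β β' : L) (h : β < β') : 1 ≤ ‖D.δ β'‖ * ‖D.ι (u β) - D.ι (u β')‖ := by
  have h1 : D.δ β' (D.ι (u β) - D.ι (u β')) = 1 := by
    rw [map_sub, D.hδ, D.hδ, u_apply, u_apply, if_pos h, if_neg (lt_irrefl _), sub_zero]
  have h2 := (D.δ β').le_opNorm (D.ι (u β) - D.ι (u β'))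
  rw [h1, norm_one] at h2
  exact h2

theorem mk_le_of_dense (hδ : ∀ β, ‖D.δ β‖ ≤ 1) (S : Set Y) (hS : Dense S) : #L ≤ #S := by
  have h1 : ∀ β : L, ∃ y ∈ S, dist (D.ι (u β)) y < 1 / 2 := fun β =>
    hS.exists_dist_lt _ (by norm_num)
  choose y hyS hy using h1
  refine Cardinal.mk_le_of_injective (f := fun β => (⟨y β, hyS β⟩ : S)) ?_
  have key : ∀ β β' : L, β < β' → y β ≠ y β' := by
    intro β β' h he
    have h2 := sep D β β' h
    have h3 : ‖D.ι (u β) - D.ι (u β')‖ < 1 := by
      rw [← dist_eq_norm]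
      calc dist (D.ι (u β)) (D.ι (u β')) ≤ dist (D.ι (u β)) (y β) + dist (y β) (D.ι (u β')) :=
            dist_triangle _ _ _
        _ < 1 / 2 + 1 / 2 := by
            refine add_lt_add (hy β) ?_
            rw [he, dist_comm]
            exact hy β'
        _ = 1 := by norm_num
    have h4 := hδ β'
    have h5 := norm_nonneg (D.ι (u β) - D.ι (u β'))
    nlinarith [norm_nonneg (D.δ β')]
  intro β β' he
  have he' : y β = y β' := congrArg Subtype.val he
  rcases lt_trichotomy β β' with h | h | h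
  · exact absurd he' (key β β' h)
  · exact h
  · exact absurd he'.symm (key β' β h)

end Density

theorem norm_evF_le (L : Type) [LinearOrder L] [OrderBot L] (ξ : L) : ‖(ljData L).δ ξ‖ ≤ 1 := by
  refine ContinuousLinearMap.opNorm_le_bound _ zero_le_one fun x => ?_
  rw [one_mul]
  refine (PiLp.norm_apply_le _ _).trans ?_
  exact lp.norm_apply_le_norm (by simp) (x : lp (Fib L) ⊤) (Ip L ξ)

section Norming

variable {E : Type} [NormedAddCommGroup E] [NormedSpace ℝ E]

/-- a subspace of the bidual which is `1`-norming for the dual has a weak-star dense unit ball -/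
theorem norming_dense (N : Submodule ℝ (StrongDual ℝ (StrongDual ℝ E)))
    (hN : ∀ ψ : StrongDual ℝ E, ∀ v : ℝ, (∀ F ∈ N, ‖F‖ ≤ 1 → |F ψ| ≤ v) → ‖ψ‖ ≤ v) :
    Dense {Φ : BidualBall E | WeakDual.toStrongDual Φ.1 ∈ N} := by
  classical
  intro Φ
  refine mem_closure_of_finset fun s ε hε => ?_
  let Tm : StrongDual ℝ (StrongDual ℝ E) →L[ℝ] (s → ℝ) :=
    ContinuousLinearMap.pi fun φ => NormedSpace.inclusionInDoubleDual ℝ _ (φ : StrongDual ℝ E)
  have hTm : ∀ F (φ : s), Tm F φ = F φ := fun F φ => rfl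
  set B : Set (StrongDual ℝ (StrongDual ℝ E)) := {F | F ∈ N ∧ ‖F‖ ≤ 1} with hB
  set C := closure (Tm '' B) with hC
  have hBc : Convex ℝ B := by
    rintro x ⟨hx, hx1⟩ y ⟨hy, hy1⟩ a b ha hb hab
    refine ⟨N.add_mem (N.smul_mem _ hx) (N.smul_mem _ hy),
      ContinuousLinearMap.opNorm_le_bound _ zero_le_one fun φ => ?_⟩
    have e1 : ∀ z : StrongDual ℝ (StrongDual ℝ E), ‖z‖ ≤ 1 → |z φ| ≤ ‖φ‖ := by
      intro z hz
      calc |z φ| ≤ ‖z‖ * ‖φ‖ := z.le_opNorm φ
        _ ≤ 1 * ‖φ‖ := mul_le_mul_of_nonneg_right hz (norm_nonneg _)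
        _ = ‖φ‖ := one_mul _
    have e : (a • x + b • y) φ = a * x φ + b * y φ := rfl
    rw [e, Real.norm_eq_abs, one_mul]
    calc |a * x φ + b * y φ| ≤ |a * x φ| + |b * y φ| := abs_add_le _ _
      _ = a * |x φ| + b * |y φ| := by rw [abs_mul, abs_mul, abs_of_nonneg ha, abs_of_nonneg hb]
      _ ≤ a * ‖φ‖ + b * ‖φ‖ := add_le_add (mul_le_mul_of_nonneg_left (e1 x hx1) ha)
          (mul_le_mul_of_nonneg_left (e1 y hy1) hb)
      _ = ‖φ‖ := by rw [← add_mul, hab, one_mul]
  have hconv : Convex ℝ C := (hBc.linear_image Tm.toLinearMap).closure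
  have hBmem : ∀ F ∈ N, ‖F‖ ≤ 1 → F ∈ B := fun F h1 h2 => ⟨h1, h2⟩
  set p : s → ℝ := fun φ => Φ.1 φ with hp
  have hpC : p ∈ C := by
    by_contra hcon
    obtain ⟨f, v, hf1, hf2⟩ := geometric_hahn_banach_closed_point hconv isClosed_closure hcon
    set ψ : StrongDual ℝ E := ∑ φ : s, f (Pi.single φ 1) • (φ : StrongDual ℝ E) with hψ
    have hfx : ∀ x : s → ℝ, f x = ∑ φ : s, x φ * f (Pi.single φ 1) := by
      intro x
      conv_lhs => rw [← Finset.univ_sum_single x]
      rw [map_sum]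
      refine Finset.sum_congr rfl fun φ _ => ?_
      have : (Pi.single φ (x φ) : s → ℝ) = x φ • Pi.single φ (1 : ℝ) := by
        rw [← Pi.single_smul, smul_eq_mul, mul_one]
      rw [this, map_smul, smul_eq_mul]
    have h1 : ∀ F : StrongDual ℝ (StrongDual ℝ E), F ψ = f (Tm F) := by
      intro F
      rw [hfx, hψ, map_sum]
      refine Finset.sum_congr rfl fun φ _ => ?_
      rw [map_smul, smul_eq_mul, mul_comm, hTm]
    have h2 : Φ.1 ψ = f p := by
      rw [hfx, hψ, map_sum]
      refine Finset.sum_congr rfl fun φ _ => ?_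
      rw [map_smul, smul_eq_mul, mul_comm]
    have h3 : ‖ψ‖ ≤ v := by
      refine hN ψ v fun F hF hF1 => ?_
      rw [abs_le]
      constructor
      · have hneg : ‖(-1 : ℝ) • F‖ ≤ 1 := by
          refine ContinuousLinearMap.opNorm_le_bound _ zero_le_one fun φ => ?_
          have e : ((-1 : ℝ) • F) φ = -1 * F φ := rfl
          rw [e, Real.norm_eq_abs, abs_mul, abs_neg, abs_one, one_mul]
          exact (F.le_opNorm φ).trans (mul_le_mul_of_nonneg_right hF1 (norm_nonneg _))
        have := hf1 (Tm ((-1 : ℝ) • F)) (subset_closure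
          ⟨(-1 : ℝ) • F, hBmem _ (N.smul_mem _ hF) hneg, rfl⟩)
        rw [← h1] at this
        have h5 : ((-1 : ℝ) • F) ψ = -1 * F ψ := rfl
        rw [h5] at this
        linarith
      · have := hf1 (Tm F) (subset_closure ⟨F, hBmem _ hF hF1, rfl⟩)
        rw [← h1] at this
        exact this.le
    have h4 : Φ.1 ψ ≤ v := by
      have h5 : ‖WeakDual.toStrongDual Φ.1‖ ≤ 1 := Φ.2
      calc Φ.1 ψ ≤ ‖(WeakDual.toStrongDual Φ.1) ψ‖ := Real.le_norm_self _
        _ ≤ ‖WeakDual.toStrongDual Φ.1‖ * ‖ψ‖ := (WeakDual.toStrongDual Φ.1).le_opNorm ψ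
        _ ≤ 1 * ‖ψ‖ := mul_le_mul_of_nonneg_right h5 (norm_nonneg _)
        _ ≤ v := by linarith
    linarith
  obtain ⟨_, ⟨F, hF, rfl⟩, hd⟩ := Metric.mem_closure_iff.1 hpC ε hε
  have hF1 : ‖F‖ ≤ 1 := hF.2
  refine ⟨⟨StrongDual.toWeakDual F, hF1⟩, hF.1, fun φ hφ => ?_⟩
  have h1 : dist (p ⟨φ, hφ⟩) (Tm F ⟨φ, hφ⟩) < ε := lt_of_le_of_lt (dist_le_pi_dist _ _ _) hd
  rw [dist_comm, Real.dist_eq] at h1
  exact h1

end Norming

end Pool.Agent.Y421.LJ
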